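import Mathlib
import Pool.Agent.P8H18.RR.Stm2

/-!
# Project AR (helper18): the variance over the affine rules (package VAR)

Expanding the square, the sum over the rules `(u, v)` is a sum over pairs of points `(x, y)`, `(x', y')` of
`G x y * G x' y' * C (x - x') (y - y')`, where `C d e` is the number of the units `u` with `u d = e` minus `r / M`
times the number of those with `u d = e` modulo `r`.  If `10 h d = r` for some `h` then `C d e = 0`, since the translations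
`u ↦ u + 10 h w` show that `u d` is equidistributed over the lifts of its class.  The other `d` are divisible by `2^K` or by
`5^K`, and there `C d e` is at most the number of the units `u` with `u d = e`.
-/

set_option autoImplicit false

namespace Pool.Agent.P8H96.AR

open Finset

section

variable {L K : ℕ} (hKL : K ≤ L)

/-- reduction modulo `10 ^ K` -/
abbrev pr (hKL : K ≤ L) : ZMod (10 ^ L) →+* ZMod (10 ^ K) :=
  ZMod.castHom (pow_dvd_pow 10 hKL) (ZMod (10 ^ K))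

theorem isU (u : (ZMod (10 ^ L))ˣ) (t : ZMod (10 ^ L)) : IsUnit ((u : ZMod (10 ^ L)) + 10 * t) := by
  have h1 : IsNilpotent (10 * t : ZMod (10 ^ L)) := by
    refine ⟨L, ?_⟩
    rw [mul_pow]
    have h2 : (10 : ZMod (10 ^ L)) ^ L = 0 := by
      have h3 := ZMod.natCast_self (10 ^ L)
      push_cast at h3
      exact h3
    rw [h2, zero_mul]
  exact h1.isUnit_add_left_of_commute u.isUnit (Commute.all _ _)

theorem pr_zero [NeZero (10 ^ L)] {x : ZMod (10 ^ L)} (h : pr hKL x = 0) :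
    ∃ w : ZMod (10 ^ L), x = 10 ^ K * w := by
  have h1 : ((x.val : ℕ) : ZMod (10 ^ K)) = 0 := by
    rw [← h]
    conv_rhs => rw [← ZMod.natCast_zmod_val x]
    rw [map_natCast]
  rw [ZMod.natCast_eq_zero_iff] at h1
  obtain ⟨q, hq⟩ := h1
  refine ⟨(q : ZMod (10 ^ L)), ?_⟩
  conv_lhs => rw [← ZMod.natCast_zmod_val x, hq]
  push_cast
  rfl

/-- the number of the units `u` with `u d = e` -/
def Nc [NeZero (10 ^ L)] (d e : ZMod (10 ^ L)) : ℕ :=
  (univ.filter fun u : (ZMod (10 ^ L))ˣ => e = u * d).card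

theorem Nc_le [NeZero (10 ^ L)] {d h : ZMod (10 ^ L)} (hd : 10 * h * d = 10 ^ K) (e w : ZMod (10 ^ L)) :
    Nc d e ≤ Nc d (e + 10 ^ K * w) := by
  unfold Nc
  refine card_le_card_of_injOn (fun u => (isU u (h * w)).unit) ?_ ?_
  · intro u hu
    rw [mem_coe, mem_filter] at hu ⊢
    refine ⟨mem_univ _, ?_⟩
    rw [IsUnit.unit_spec, hu.2, ← hd]
    ring
  · intro u _ u' _ huu
    have h1 := congrArg (Units.val) huu
    simp only [IsUnit.unit_spec] at h1
    exact Units.ext (add_right_cancel h1)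

theorem Nc_eq [NeZero (10 ^ L)] {d h : ZMod (10 ^ L)} (hd : 10 * h * d = 10 ^ K) {e z : ZMod (10 ^ L)}
    (hz : pr hKL z = pr hKL e) : Nc d z = Nc d e := by
  have h0 : pr hKL (z - e) = 0 := by rw [map_sub, hz, sub_self]
  obtain ⟨w, hw⟩ := pr_zero hKL h0
  apply le_antisymm
  · have h1 := Nc_le hd z (-w)
    have h2 : z + 10 ^ K * -w = e := by
      have : 10 ^ K * -w = -(z - e) := by rw [hw]; ring
      rw [this]; ring
    rwa [h2] at h1
  · have h1 := Nc_le hd e w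
    rwa [← hw, add_sub_cancel] at h1

variable [NeZero (10 ^ L)] [NeZero (10 ^ K)]

/-- the number of the elements over a class -/
theorem fib (s : ZMod (10 ^ K)) :
    ((univ.filter fun v : ZMod (10 ^ L) => pr hKL v = s).card : ℝ) = 10 ^ L / 10 ^ K := by
  have hsurj : Function.Surjective (pr hKL) := ZMod.castHom_surjective _
  have h1 : ∀ t : ZMod (10 ^ K), (univ.filter fun v : ZMod (10 ^ L) => pr hKL v = t).card =
      (univ.filter fun v : ZMod (10 ^ L) => pr hKL v = s).card := by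
    intro t
    exact AddMonoidHom.card_fiber_eq_of_mem_range (pr hKL).toAddMonoidHom (hsurj t) (hsurj s)
  have h2 : (univ : Finset (ZMod (10 ^ L))).card = ∑ t : ZMod (10 ^ K),
      (univ.filter fun v : ZMod (10 ^ L) => pr hKL v = t).card :=
    card_eq_sum_card_fiberwise fun v _ => mem_univ _
  rw [sum_congr rfl fun t _ => h1 t, sum_const, smul_eq_mul, card_univ, card_univ, ZMod.card,
    ZMod.card] at h2
  have h3 : ((10 : ℝ) ^ L) = 10 ^ K *
      ((univ.filter fun v : ZMod (10 ^ L) => pr hKL v = s).card : ℝ) := by exact_mod_cast h2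
  rw [h3]
  field_simp

/-- the coefficient of a pair of points -/
noncomputable def Cc (d e : ZMod (10 ^ L)) : ℝ := ∑ u : (ZMod (10 ^ L))ˣ,
  ((if e = u * d then 1 else 0) - (10 : ℝ) ^ K / 10 ^ L * (if pr hKL e = pr hKL (u * d) then 1 else 0))

theorem Cc_le (d e : ZMod (10 ^ L)) : Cc hKL d e ≤ Nc d e := by
  unfold Cc Nc
  rw [card_filter]
  push_cast
  refine sum_le_sum fun u _ => ?_
  have : (0 : ℝ) ≤ (10 : ℝ) ^ K / 10 ^ L * (if pr hKL e = pr hKL (u * d) then 1 else 0) := by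
    apply mul_nonneg (by positivity)
    split_ifs <;> norm_num
  linarith

theorem Cc_zero {d h : ZMod (10 ^ L)} (hd : 10 * h * d = 10 ^ K) (e : ZMod (10 ^ L)) :
    Cc hKL d e = 0 := by
  have h1 : ∀ u : (ZMod (10 ^ L))ˣ, (if pr hKL e = pr hKL (u * d) then (1 : ℝ) else 0) =
      ∑ z ∈ univ.filter (fun z : ZMod (10 ^ L) => pr hKL z = pr hKL e),
        (if z = u * d then (1 : ℝ) else 0) := by
    intro u
    rw [sum_ite_eq' , ]
    simp only [mem_filter, mem_univ, true_and]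
    exact if_congr eq_comm rfl rfl
  have h2 : ∑ u : (ZMod (10 ^ L))ˣ, (if pr hKL e = pr hKL (u * d) then (1 : ℝ) else 0) =
      10 ^ L / 10 ^ K * Nc d e := by
    rw [sum_congr rfl fun u _ => h1 u, sum_comm]
    have h3 : ∀ z ∈ univ.filter (fun z : ZMod (10 ^ L) => pr hKL z = pr hKL e),
        ∑ u : (ZMod (10 ^ L))ˣ, (if z = u * d then (1 : ℝ) else 0) = Nc d e := by
      intro z hz
      rw [← Nc_eq hKL hd (mem_filter.1 hz).2]
      unfold Nc
      rw [card_filter]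
      push_cast
      rfl
    rw [sum_congr rfl h3, sum_const, nsmul_eq_mul, fib]
  unfold Cc
  rw [sum_sub_distrib, ← mul_sum, h2]
  have h4 : ∑ u : (ZMod (10 ^ L))ˣ, (if e = u * d then (1 : ℝ) else 0) = Nc d e := by
    unfold Nc
    rw [card_filter]
    push_cast
    rfl
  rw [h4]
  field_simp
  ring

/-- the differences `d` with `10 h d = 10 ^ K` for some `h` -/
theorem exists_h (hK : 1 ≤ K) (d : ZMod (10 ^ L)) (h2 : ¬ 2 ^ K ∣ d.val) (h5 : ¬ 5 ^ K ∣ d.val) :
    ∃ h : ZMod (10 ^ L), 10 * h * d = 10 ^ K := by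
  obtain ⟨n, hn⟩ : ∃ n, n = d.val := ⟨_, rfl⟩
  rw [← hn] at h2 h5
  have hcop : Nat.Coprime (2 ^ L) (5 ^ L) := Nat.Coprime.pow _ _ (by norm_num)
  have hg : n.gcd (10 ^ L) ∣ 10 ^ (K - 1) := by
    have e : (10 : ℕ) ^ L = 2 ^ L * 5 ^ L := by rw [← mul_pow]; norm_num
    have e' : (10 : ℕ) ^ (K - 1) = 2 ^ (K - 1) * 5 ^ (K - 1) := by rw [← mul_pow]; norm_num
    rw [e, e', Nat.Coprime.gcd_mul n hcop]
    apply mul_dvd_mul
    · obtain ⟨a, _, ha⟩ := (Nat.dvd_prime_pow Nat.prime_two).1 (Nat.gcd_dvd_right n (2 ^ L))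
      rw [ha]
      apply pow_dvd_pow
      by_contra hcon
      apply h2
      refine (pow_dvd_pow 2 (show K ≤ a by omega)).trans ?_
      rw [← ha]
      exact Nat.gcd_dvd_left _ _
    · obtain ⟨a, _, ha⟩ := (Nat.dvd_prime_pow Nat.prime_five).1 (Nat.gcd_dvd_right n (5 ^ L))
      rw [ha]
      apply pow_dvd_pow
      by_contra hcon
      apply h5
      refine (pow_dvd_pow 5 (show K ≤ a by omega)).trans ?_
      rw [← ha]
      exact Nat.gcd_dvd_left _ _
  obtain ⟨q, hq⟩ := hg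
  have hb := Nat.gcd_eq_gcd_ab n (10 ^ L)
  have hb2 : ((n.gcd (10 ^ L) : ℕ) : ZMod (10 ^ L)) = d * ((n.gcdA (10 ^ L) : ℤ) : ZMod (10 ^ L)) := by
    have h3 := congrArg (Int.cast : ℤ → ZMod (10 ^ L)) hb
    rw [Int.cast_natCast] at h3
    rw [h3]
    have h4 : (((10 ^ L : ℕ) : ℤ) : ZMod (10 ^ L)) = 0 := by
      rw [Int.cast_natCast, ZMod.natCast_self]
    have h5 : ((n : ℤ) : ZMod (10 ^ L)) = d := by
      rw [Int.cast_natCast, hn, ZMod.natCast_zmod_val]
    rw [Int.cast_add, Int.cast_mul, Int.cast_mul, h4, h5, zero_mul, add_zero]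
  refine ⟨((n.gcdA (10 ^ L) : ℤ) : ZMod (10 ^ L)) * (q : ZMod (10 ^ L)), ?_⟩
  have h6 : (10 : ZMod (10 ^ L)) ^ K = 10 * 10 ^ (K - 1) := by
    rw [← pow_succ']
    congr 1
    omega
  have h7 : (10 : ZMod (10 ^ L)) ^ (K - 1) = ((n.gcd (10 ^ L) : ℕ) : ZMod (10 ^ L)) * (q : ZMod (10 ^ L)) := by
    rw [← Nat.cast_mul, ← hq]
    push_cast
    rfl
  rw [h6, h7, hb2]
  ring

theorem count_dvd (m : ℕ) (hm : m ∣ 10 ^ L) :
    ((univ.filter fun d : ZMod (10 ^ L) => m ∣ d.val).card : ℝ) ≤ 10 ^ L / m := by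
  have hm0 : 0 < m := Nat.pos_of_dvd_of_pos hm (by positivity)
  have h1 : (univ.filter fun d : ZMod (10 ^ L) => m ∣ d.val).card ≤ (range (10 ^ L / m)).card := by
    refine card_le_card_of_injOn (fun d => d.val / m) ?_ ?_
    · intro d hd
      rw [mem_coe, mem_filter] at hd
      rw [mem_coe, mem_range]
      exact Nat.div_lt_div_of_lt_of_dvd hm (ZMod.val_lt d)
    · intro d hd d' hd' h
      rw [mem_coe, mem_filter] at hd hd'
      simp only at h
      apply ZMod.val_injective (10 ^ L)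
      rw [← Nat.div_mul_cancel hd.2, ← Nat.div_mul_cancel hd'.2, h]
  rw [card_range] at h1
  have h2 : ((10 ^ L / m : ℕ) : ℝ) = 10 ^ L / m := by
    rw [Nat.cast_div hm (by exact_mod_cast hm0.ne')]
    push_cast
    rfl
  rw [← h2]
  exact_mod_cast h1

open Classical in
theorem count_bad (hK : 1 ≤ K) (hKL : K ≤ L) :
    ((univ.filter fun d : ZMod (10 ^ L) => ¬ ∃ h : ZMod (10 ^ L), 10 * h * d = 10 ^ K).card : ℝ) ≤
      2 * 10 ^ L / 2 ^ K := by
  have h1 : (univ.filter fun d : ZMod (10 ^ L) => ¬ ∃ h : ZMod (10 ^ L), 10 * h * d = 10 ^ K).card ≤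
      (univ.filter fun d : ZMod (10 ^ L) => 2 ^ K ∣ d.val).card +
        (univ.filter fun d : ZMod (10 ^ L) => 5 ^ K ∣ d.val).card := by
    refine le_trans (card_le_card ?_) (card_union_le _ _)
    intro d hd
    rw [mem_filter] at hd
    rw [mem_union, mem_filter, mem_filter]
    by_contra hcon
    push Not at hcon
    exact hd.2 (exists_h hK d (hcon.1 (mem_univ _)) (hcon.2 (mem_univ _)))
  have h2 := count_dvd (L := L) (2 ^ K) ((pow_dvd_pow 2 hKL).trans (pow_dvd_pow_of_dvd (by norm_num) L))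
  have h3 := count_dvd (L := L) (5 ^ K) ((pow_dvd_pow 5 hKL).trans (pow_dvd_pow_of_dvd (by norm_num) L))
  have h4 : (10 : ℝ) ^ L / ((5 ^ K : ℕ) : ℝ) ≤ 10 ^ L / ((2 ^ K : ℕ) : ℝ) := by
    push_cast
    apply div_le_div_of_nonneg_left (by positivity) (by positivity)
    exact pow_le_pow_left₀ (by norm_num) (by norm_num) _
  have h5 : ((univ.filter fun d : ZMod (10 ^ L) =>
      ¬ ∃ h : ZMod (10 ^ L), 10 * h * d = 10 ^ K).card : ℝ) ≤
      ((univ.filter fun d : ZMod (10 ^ L) => 2 ^ K ∣ d.val).card : ℝ) +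
        ((univ.filter fun d : ZMod (10 ^ L) => 5 ^ K ∣ d.val).card : ℝ) := by exact_mod_cast h1
  push_cast at h2 h3 h4
  have h6 : 2 * (10 : ℝ) ^ L / 2 ^ K = 10 ^ L / 2 ^ K + 10 ^ L / 2 ^ K := by ring
  rw [h6]
  linarith

/-- the deviation of one point -/
noncomputable def T (u : (ZMod (10 ^ L))ˣ) (v x y : ZMod (10 ^ L)) : ℝ :=
  (if v = y - u * x then 1 else 0) - (10 : ℝ) ^ K / 10 ^ L * (if pr hKL v = pr hKL (y - u * x) then 1 else 0)

theorem T_sum (u : (ZMod (10 ^ L))ˣ) (x y x' y' : ZMod (10 ^ L)) :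
    ∑ v, T hKL u v x y * T hKL u v x' y' =
      (if y - y' = u * (x - x') then 1 else 0) -
        (10 : ℝ) ^ K / 10 ^ L * (if pr hKL (y - y') = pr hKL (u * (x - x')) then 1 else 0) := by
  obtain ⟨a, ha⟩ : ∃ a, a = y - u * x := ⟨_, rfl⟩
  obtain ⟨a', ha'⟩ : ∃ a', a' = y' - u * x' := ⟨_, rfl⟩
  obtain ⟨ρ, hρ⟩ : ∃ ρ : ℝ, ρ = (10 : ℝ) ^ K / 10 ^ L := ⟨_, rfl⟩
  unfold T
  rw [← ha, ← ha', ← hρ]
  have e1 : (y - y' = u * (x - x')) ↔ a = a' := by
    rw [ha, ha']
    constructor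
    · intro h
      linear_combination h
    · intro h
      linear_combination h
  have e2 : (pr hKL (y - y') = pr hKL (u * (x - x'))) ↔ pr hKL a = pr hKL a' := by
    rw [ha, ha', ← sub_eq_zero, ← map_sub, ← sub_eq_zero (a := pr hKL (y - u * x)), ← map_sub]
    have : y - y' - u * (x - x') = y - u * x - (y' - u * x') := by ring
    rw [this]
  rw [if_congr e1 rfl rfl, if_congr e2 rfl rfl]
  have s1 : ∑ v : ZMod (10 ^ L), (if v = a then (1 : ℝ) else 0) * (if v = a' then 1 else 0) =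
      if a = a' then 1 else 0 := by
    simp only [ite_mul, one_mul, zero_mul, sum_ite_eq', mem_univ, if_true]
  have s2 : ∑ v : ZMod (10 ^ L), (if v = a then (1 : ℝ) else 0) * (if pr hKL v = pr hKL a' then 1 else 0) =
      if pr hKL a = pr hKL a' then 1 else 0 := by
    simp only [ite_mul, one_mul, zero_mul, sum_ite_eq', mem_univ, if_true]
  have s3 : ∑ v : ZMod (10 ^ L), (if pr hKL v = pr hKL a then (1 : ℝ) else 0) * (if v = a' then 1 else 0) =
      if pr hKL a = pr hKL a' then 1 else 0 := by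
    simp only [mul_ite, mul_one, mul_zero, sum_ite_eq', mem_univ, if_true]
    exact if_congr eq_comm rfl rfl
  have s4 : ρ * ∑ v : ZMod (10 ^ L), (if pr hKL v = pr hKL a then (1 : ℝ) else 0) *
      (if pr hKL v = pr hKL a' then 1 else 0) = if pr hKL a = pr hKL a' then 1 else 0 := by
    by_cases h : pr hKL a = pr hKL a'
    · rw [if_pos h, ← h]
      have h1 : ∀ v : ZMod (10 ^ L), (if pr hKL v = pr hKL a then (1 : ℝ) else 0) *
          (if pr hKL v = pr hKL a then 1 else 0) = if pr hKL v = pr hKL a then (1 : ℝ) else 0 := by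
        intro v
        split_ifs <;> norm_num
      rw [sum_congr rfl fun v _ => h1 v, ← sum_filter, sum_const, nsmul_eq_mul, mul_one, fib, hρ]
      field_simp
    · rw [if_neg h]
      have h1 : ∀ v : ZMod (10 ^ L), (if pr hKL v = pr hKL a then (1 : ℝ) else 0) *
          (if pr hKL v = pr hKL a' then 1 else 0) = 0 := by
        intro v
        by_cases hv : pr hKL v = pr hKL a
        · rw [if_neg (fun h' => h (hv.symm.trans h')), mul_zero]
        · rw [if_neg hv, zero_mul]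
      rw [sum_congr rfl fun v _ => h1 v, sum_const_zero, mul_zero]
  have h5 : ∀ v : ZMod (10 ^ L), ((if v = a then (1 : ℝ) else 0) - ρ * (if pr hKL v = pr hKL a then 1 else 0)) *
      ((if v = a' then 1 else 0) - ρ * (if pr hKL v = pr hKL a' then 1 else 0)) =
      (if v = a then (1 : ℝ) else 0) * (if v = a' then 1 else 0) -
      ρ * ((if v = a then (1 : ℝ) else 0) * (if pr hKL v = pr hKL a' then 1 else 0)) -
      ρ * ((if pr hKL v = pr hKL a then (1 : ℝ) else 0) * (if v = a' then 1 else 0)) +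
      ρ * (ρ * ((if pr hKL v = pr hKL a then (1 : ℝ) else 0) * (if pr hKL v = pr hKL a' then 1 else 0))) := by
    intro v
    ring
  rw [sum_congr rfl fun v _ => h5 v, sum_add_distrib, sum_sub_distrib, sum_sub_distrib, ← mul_sum,
    ← mul_sum, ← mul_sum, ← mul_sum, s1, s2, s3, s4]
  ring

/-- the deviation of a rule -/
theorem dev (G : ZMod (10 ^ L) → ZMod (10 ^ L) → ℝ) (u : (ZMod (10 ^ L))ˣ) (v : ZMod (10 ^ L)) :
    (∑ x, G x (u * x + v)) - (10 : ℝ) ^ K / 10 ^ L *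
      ∑ x, ∑ y, (if pr hKL y = pr hKL ((u : ZMod (10 ^ L)) * x + v) then G x y else 0) =
    ∑ p : ZMod (10 ^ L) × ZMod (10 ^ L), G p.1 p.2 * T hKL u v p.1 p.2 := by
  rw [Fintype.sum_prod_type, mul_sum, ← sum_sub_distrib]
  refine sum_congr rfl fun x _ => ?_
  unfold T
  have h1 : ∀ y : ZMod (10 ^ L), G x y * ((if v = y - u * x then 1 else 0) -
      (10 : ℝ) ^ K / 10 ^ L * (if pr hKL v = pr hKL (y - u * x) then 1 else 0)) =
      (if y = u * x + v then G x y else 0) - (10 : ℝ) ^ K / 10 ^ L *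
        (if pr hKL y = pr hKL ((u : ZMod (10 ^ L)) * x + v) then G x y else 0) := by
    intro y
    have e1 : (v = y - u * x) ↔ (y = u * x + v) := by
      constructor
      · intro h
        linear_combination -h
      · intro h
        linear_combination -h
    have e2 : (pr hKL v = pr hKL (y - u * x)) ↔ (pr hKL y = pr hKL ((u : ZMod (10 ^ L)) * x + v)) := by
      rw [map_sub, map_add]
      constructor
      · intro h
        linear_combination -h
      · intro h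
        linear_combination -h
    rw [if_congr e1 rfl rfl, if_congr e2 rfl rfl]
    split_ifs <;> ring
  rw [sum_congr rfl fun y _ => h1 y, sum_sub_distrib, sum_ite_eq', if_pos (mem_univ _), ← mul_sum]

/-- the expansion of the variance -/
theorem expand (G : ZMod (10 ^ L) → ZMod (10 ^ L) → ℝ) :
    ∑ u : (ZMod (10 ^ L))ˣ, ∑ v : ZMod (10 ^ L),
      (∑ p : ZMod (10 ^ L) × ZMod (10 ^ L), G p.1 p.2 * T hKL u v p.1 p.2) ^ 2 =
    ∑ p : ZMod (10 ^ L) × ZMod (10 ^ L), ∑ q : ZMod (10 ^ L) × ZMod (10 ^ L),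
      G p.1 p.2 * G q.1 q.2 * Cc hKL (p.1 - q.1) (p.2 - q.2) := by
  have h1 : ∀ (u : (ZMod (10 ^ L))ˣ) (v : ZMod (10 ^ L)),
      (∑ p : ZMod (10 ^ L) × ZMod (10 ^ L), G p.1 p.2 * T hKL u v p.1 p.2) ^ 2 =
      ∑ p : ZMod (10 ^ L) × ZMod (10 ^ L), ∑ q : ZMod (10 ^ L) × ZMod (10 ^ L),
        G p.1 p.2 * G q.1 q.2 * (T hKL u v p.1 p.2 * T hKL u v q.1 q.2) := by
    intro u v
    rw [sq, sum_mul_sum]
    refine sum_congr rfl fun p _ => sum_congr rfl fun q _ => ?_
    ring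
  simp_rw [h1]
  have h2 : ∀ u : (ZMod (10 ^ L))ˣ, ∑ v : ZMod (10 ^ L),
      ∑ p : ZMod (10 ^ L) × ZMod (10 ^ L), ∑ q : ZMod (10 ^ L) × ZMod (10 ^ L),
        G p.1 p.2 * G q.1 q.2 * (T hKL u v p.1 p.2 * T hKL u v q.1 q.2) =
      ∑ p : ZMod (10 ^ L) × ZMod (10 ^ L), ∑ q : ZMod (10 ^ L) × ZMod (10 ^ L),
        G p.1 p.2 * G q.1 q.2 * ((if p.2 - q.2 = u * (p.1 - q.1) then 1 else 0) -
        (10 : ℝ) ^ K / 10 ^ L * (if pr hKL (p.2 - q.2) = pr hKL (u * (p.1 - q.1)) then 1 else 0)) := by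
    intro u
    rw [sum_comm]
    refine sum_congr rfl fun p _ => ?_
    rw [sum_comm]
    refine sum_congr rfl fun q _ => ?_
    rw [← mul_sum, T_sum]
  rw [sum_congr rfl fun u _ => h2 u, sum_comm]
  refine sum_congr rfl fun p _ => ?_
  rw [sum_comm]
  refine sum_congr rfl fun q _ => ?_
  rw [← mul_sum]
  rfl

open Classical in
theorem inner (hK : 1 ≤ K) (G : ZMod (10 ^ L) → ZMod (10 ^ L) → ℝ) (B : ℝ) (hG0 : ∀ x y, 0 ≤ G x y)
    (hGB : ∀ x y, G x y ≤ B) (p : ZMod (10 ^ L) × ZMod (10 ^ L)) :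
    ∑ q : ZMod (10 ^ L) × ZMod (10 ^ L), G p.1 p.2 * G q.1 q.2 * Cc hKL (p.1 - q.1) (p.2 - q.2) ≤
      G p.1 p.2 * (B * (2 * 10 ^ L / 2 ^ K) * 10 ^ L) := by
  have hB : 0 ≤ B := (hG0 0 0).trans (hGB 0 0)
  have h1 : ∀ q : ZMod (10 ^ L) × ZMod (10 ^ L),
      G p.1 p.2 * G q.1 q.2 * Cc hKL (p.1 - q.1) (p.2 - q.2) ≤
      G p.1 p.2 * (B * (if ¬ ∃ h : ZMod (10 ^ L), 10 * h * (p.1 - q.1) = 10 ^ K then
        (Nc (p.1 - q.1) (p.2 - q.2) : ℝ) else 0)) := by
    intro q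
    rw [mul_assoc]
    apply mul_le_mul_of_nonneg_left _ (hG0 _ _)
    by_cases h : ∃ h : ZMod (10 ^ L), 10 * h * (p.1 - q.1) = 10 ^ K
    · obtain ⟨h', hh⟩ := h
      rw [Cc_zero hKL hh, if_neg (not_not.2 ⟨h', hh⟩), mul_zero, mul_zero]
    · rw [if_pos h]
      have h2 := Cc_le hKL (p.1 - q.1) (p.2 - q.2)
      calc G q.1 q.2 * Cc hKL (p.1 - q.1) (p.2 - q.2) ≤ G q.1 q.2 * Nc (p.1 - q.1) (p.2 - q.2) :=
            mul_le_mul_of_nonneg_left h2 (hG0 _ _)
        _ ≤ _ := mul_le_mul_of_nonneg_right (hGB _ _) (Nat.cast_nonneg _)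
  refine (sum_le_sum fun q _ => h1 q).trans ?_
  rw [← mul_sum, ← mul_sum]
  apply mul_le_mul_of_nonneg_left _ (hG0 _ _)
  rw [mul_assoc]
  apply mul_le_mul_of_nonneg_left _ hB
  rw [Fintype.sum_prod_type]
  -- for each abscissa the number of the pairs is the number of the units
  have h3 : ∀ x : ZMod (10 ^ L), ∑ y : ZMod (10 ^ L), (Nc (p.1 - x) (p.2 - y) : ℝ) ≤ 10 ^ L := by
    intro x
    have h4 : ∑ y : ZMod (10 ^ L), Nc (p.1 - x) (p.2 - y) = Fintype.card (ZMod (10 ^ L))ˣ := by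
      unfold Nc
      simp_rw [card_filter]
      rw [sum_comm]
      have h5 : ∀ u : (ZMod (10 ^ L))ˣ, ∑ y : ZMod (10 ^ L),
          (if p.2 - y = u * (p.1 - x) then 1 else 0) = 1 := by
        intro u
        have h6 : ∀ y : ZMod (10 ^ L), (if p.2 - y = u * (p.1 - x) then 1 else 0) =
            if y = p.2 - u * (p.1 - x) then 1 else 0 := by
          intro y
          refine if_congr ?_ rfl rfl
          constructor
          · intro h
            linear_combination -h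
          · intro h
            linear_combination -h
        rw [sum_congr rfl fun y _ => h6 y, sum_ite_eq', if_pos (mem_univ _)]
      rw [sum_congr rfl fun u _ => h5 u, sum_const, smul_eq_mul, mul_one, card_univ]
    have h7 : Fintype.card (ZMod (10 ^ L))ˣ ≤ 10 ^ L := by
      have h8 := Fintype.card_le_of_injective (fun u : (ZMod (10 ^ L))ˣ => (u : ZMod (10 ^ L)))
        Units.val_injective
      rwa [ZMod.card] at h8
    rw [← Nat.cast_sum, h4]
    exact_mod_cast h7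
  have h9 : ∀ x : ZMod (10 ^ L), ∑ y : ZMod (10 ^ L),
      (if ¬ ∃ h : ZMod (10 ^ L), 10 * h * (p.1 - x) = 10 ^ K then
        (Nc (p.1 - x) (p.2 - y) : ℝ) else 0) ≤
      if ¬ ∃ h : ZMod (10 ^ L), 10 * h * (p.1 - x) = 10 ^ K then (10 : ℝ) ^ L else 0 := by
    intro x
    by_cases h : ∃ h : ZMod (10 ^ L), 10 * h * (p.1 - x) = 10 ^ K
    · rw [if_neg (not_not.2 h)]
      simp only [if_neg (not_not.2 h)]
      rw [sum_const_zero]
    · rw [if_pos h]
      simp only [if_pos h]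
      exact h3 x
  refine (sum_le_sum fun x _ => h9 x).trans ?_
  rw [← sum_filter, sum_const, nsmul_eq_mul]
  apply mul_le_mul_of_nonneg_right _ (by positivity)
  refine le_trans ?_ (count_bad hK hKL)
  have h10 : (univ.filter fun x : ZMod (10 ^ L) => ¬ ∃ h : ZMod (10 ^ L), 10 * h * (p.1 - x) = 10 ^ K).card ≤
      (univ.filter fun d : ZMod (10 ^ L) => ¬ ∃ h : ZMod (10 ^ L), 10 * h * d = 10 ^ K).card := by
    refine card_le_card_of_injOn (fun x => p.1 - x) ?_ ?_
    · intro x hx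
      rw [mem_coe, mem_filter] at hx ⊢
      exact ⟨mem_univ _, hx.2⟩
    · intro x _ x' _ h
      exact sub_right_injective h
  exact_mod_cast h10

end

open Pool.Agent.P8H18.AR in
theorem var : S_VAR := by
  intro L K hK hKL _ _ G B hG0 hGB
  have hB : 0 ≤ B := (hG0 0 0).trans (hGB 0 0)
  have h0 : ∀ (u : (ZMod (10 ^ L))ˣ) (v : ZMod (10 ^ L)),
      ((∑ x, G x (u * x + v)) - (10 : ℝ) ^ K / 10 ^ L *
        ∑ x, ∑ y, (if ZMod.castHom (pow_dvd_pow 10 hKL) (ZMod (10 ^ K)) y =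
          ZMod.castHom (pow_dvd_pow 10 hKL) (ZMod (10 ^ K)) ((u : ZMod (10 ^ L)) * x + v)
          then G x y else 0)) ^ 2 =
      (∑ p : ZMod (10 ^ L) × ZMod (10 ^ L), G p.1 p.2 * T hKL u v p.1 p.2) ^ 2 := by
    intro u v
    rw [← dev hKL G u v]
  simp_rw [h0]
  rw [expand]
  refine (sum_le_sum fun p _ => inner hKL hK G B hG0 hGB p).trans ?_
  rw [← sum_mul, Fintype.sum_prod_type]
  obtain ⟨Sg, hSg⟩ : ∃ s : ℝ, s = ∑ x, ∑ y, G x y := ⟨_, rfl⟩
  rw [← hSg]
  have hSg0 : 0 ≤ Sg := by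
    rw [hSg]
    exact sum_nonneg fun x _ => sum_nonneg fun y _ => hG0 x y
  have h1 : Sg * (B * (2 * 10 ^ L / 2 ^ K) * 10 ^ L) = 2 * (B / 2 ^ K * Sg * (10 ^ L) ^ 2) := by ring
  have h2 : 13 * B / 2 ^ K * Sg * (10 ^ L) ^ 2 = 13 * (B / 2 ^ K * Sg * (10 ^ L) ^ 2) := by ring
  have h3 : 0 ≤ B / 2 ^ K * Sg * (10 ^ L) ^ 2 := by positivity
  rw [h1, h2]
  linarith

end Pool.Agent.P8H96.AR
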